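import Pool.Agent.H55.PM.Targets

/-!
# Module N4 of pm_modules: the gcd of the parts is one
-/

set_option autoImplicit false

namespace Pool.Agent.H86.PM

open Pool.Agent.H55.PM

theorem dvd_of_pc (A M : Set ℕ) (d n : ℕ) (hd : ∀ a ∈ A, d ∣ a) (h : 1 ≤ pc A M n) :
    d ∣ n := by
  have h1 : (PS A M n).Nonempty := by
    rw [Set.nonempty_iff_ne_empty]
    intro h0
    rw [pc, h0, Set.ncard_empty] at h
    omega
  obtain ⟨p, hp⟩ := h1
  have hs : p.parts.sum = n := p.parts_sum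
  rw [← hs]
  exact Multiset.dvd_sum fun a ha => hd a (hp a ha).1

theorem pf_n4 : T_N4 := by
  intro A M hG d hd
  obtain ⟨⟨N, hN⟩, _⟩ := hG
  have h1 := dvd_of_pc A M d N hd (hN N le_rfl)
  have h2 := dvd_of_pc A M d (N + 1) hd (hN (N + 1) (by omega))
  have h3 : d ∣ 1 := (Nat.dvd_add_right h1).mp h2
  exact Nat.dvd_one.mp h3

end Pool.Agent.H86.PM
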